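import Mathlib

/-!
# The vertices of degree `k + t` of a `k`-tree can be coloured with `t + 1` colours

This determines the function `g` of the problem: `g t = t + 1`.
-/

set_option autoImplicit false

namespace Pool.Agent.Results.MP_26d357_co.KTreeDegreeClasses

open Finset

/-- `KTreeOn G k s` says that the subgraph of `G` induced on `s` is a `k`-tree: it can be built
from a clique on `k + 1` vertices by repeatedly adding one new vertex `x`, whose neighbours among
the existing vertices are exactly the `k` vertices of a clique `q`. -/
inductive KTreeOn {V : Type*} (G : SimpleGraph V) (k : ℕ) : Finset V → Prop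
  | base (s : Finset V) (hs : G.IsNClique (k + 1) s) : KTreeOn G k s
  | step (s : Finset V) (x : V) (q : Finset V) (hs : KTreeOn G k s) (hx : x ∉ s) (hq : q ⊆ s)
      (hc : G.IsNClique k q) (hadj : ∀ y ∈ s, G.Adj x y ↔ y ∈ q) :
      KTreeOn G k (Finset.cons x s hx)

/-- A finite graph is a `k`-tree. -/
def IsKTree {V : Type*} [Fintype V] (k : ℕ) (G : SimpleGraph V) : Prop :=
  KTreeOn G k Finset.univ

/-- The set of vertices of degree exactly `i`. -/
def degreeClass {V : Type*} (G : SimpleGraph V) (i : ℕ) : Set V :=
  {v | (G.neighborSet v).ncard = i}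

/-- The number `g t` of the problem: the supremum of the chromatic numbers of the subgraphs induced
on the vertices of degree `k + t`, over all `k ≥ 1` and all `k`-trees of order at least
`k + t + 2`. -/
noncomputable def g (t : ℕ) : ℕ∞ :=
  sSup {c : ℕ∞ | ∃ k : ℕ, 1 ≤ k ∧ ∃ (V : Type) (_ : Fintype V) (G : SimpleGraph V),
    IsKTree k G ∧ k + t + 2 ≤ Fintype.card V ∧
      c = (G.induce (degreeClass G (k + t))).chromaticNumber}

section Upper

variable {V : Type*} {G : SimpleGraph V} {k : ℕ}

open Classical in
theorem card_clique_le {s : Finset V} (h : KTreeOn G k s) :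
    ∀ T ⊆ s, G.IsClique (T : Set V) → T.card ≤ k + 1 := by
  induction h with
  | base s hs =>
    intro T hT _
    exact (Finset.card_le_card hT).trans hs.card_eq.le
  | step s x q hs hx hq hc hadj ih =>
    intro T hT hcl
    by_cases hxT : x ∈ T
    · have hsub : T.erase x ⊆ q := by
        intro y hy
        rw [Finset.mem_erase] at hy
        have hys : y ∈ s := by
          rcases Finset.mem_cons.1 (hT hy.2) with h | h
          · exact absurd h hy.1
          · exact h
        exact (hadj y hys).1 (hcl hxT hy.2 hy.1.symm)
      have h1 := Finset.card_le_card hsub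
      rw [hc.card_eq, Finset.card_erase_of_mem hxT] at h1
      omega
    · refine ih T (fun y hy => ?_) hcl
      rcases Finset.mem_cons.1 (hT hy) with h | h
      · exact absurd (h ▸ hy) hxT
      · exact h

open Classical in
theorem card_add_le {s : Finset V} (h : KTreeOn G k s) :
    ∀ T ⊆ s, G.IsClique (T : Set V) → (∀ u ∈ T, ∃ w ∈ s, w ≠ u ∧ ¬ G.Adj u w) →
      T.card + (k + 1) ≤ s.card := by
  induction h with
  | base s hs =>
    intro T hT _ hnu
    have hTe : T = ∅ := by
      rw [Finset.eq_empty_iff_forall_notMem]
      intro u hu
      obtain ⟨w, hw, hwu, hna⟩ := hnu u hu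
      exact hna (hs.isClique (hT hu) hw hwu.symm)
    rw [hTe, hs.card_eq]
    simp
  | step s x q hs hx hq hc hadj ih =>
    intro T hT hcl hnu
    rw [Finset.card_cons]
    by_cases hxT : x ∈ T
    · have h1 := ih (T.erase x) (by
          intro y hy
          rw [Finset.mem_erase] at hy
          rcases Finset.mem_cons.1 (hT hy.2) with h | h
          · exact absurd h hy.1
          · exact h)
        (hcl.subset (by exact_mod_cast Finset.erase_subset x T)) (by
          intro u hu
          rw [Finset.mem_erase] at hu
          obtain ⟨w, hw, hwu, hna⟩ := hnu u hu.2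
          rcases Finset.mem_cons.1 hw with h | h
          · exact absurd (h ▸ hcl hu.2 hxT hu.1) hna
          · exact ⟨w, h, hwu, hna⟩)
      rw [Finset.card_erase_of_mem hxT] at h1
      have : 0 < T.card := Finset.card_pos.2 ⟨x, hxT⟩
      omega
    · have hTs : T ⊆ s := by
        intro y hy
        rcases Finset.mem_cons.1 (hT hy) with h | h
        · exact absurd (h ▸ hy) hxT
        · exact h
      let U := T.filter (fun u => ∀ w ∈ s, w ≠ u → G.Adj u w)
      let T' := T.filter (fun u => ¬ ∀ w ∈ s, w ≠ u → G.Adj u w)
      have hcard : U.card + T'.card = T.card := Finset.card_filter_add_card_filter_not _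
      have h1 := ih T' ((Finset.filter_subset _ _).trans hTs)
        (hcl.subset (by exact_mod_cast Finset.filter_subset _ T)) (by
          intro u hu
          have := (Finset.mem_filter.1 hu).2
          push Not at this
          exact this)
      have hdisj : Disjoint U q := by
        rw [Finset.disjoint_left]
        intro u hu huq
        obtain ⟨huT, hun⟩ := Finset.mem_filter.1 hu
        obtain ⟨w, hw, hwu, hna⟩ := hnu u huT
        rcases Finset.mem_cons.1 hw with h | h
        · subst h
          exact hna ((hadj u (hTs huT)).2 huq).symm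
        · exact hna (hun w h hwu)
      have hclq : G.IsClique ((U ∪ q : Finset V) : Set V) := by
        intro a ha b hb hab
        simp only [Finset.coe_union, Set.mem_union, Finset.mem_coe] at ha hb
        rcases ha with ha | ha
        · have hbs : b ∈ s := by
            rcases hb with hb | hb
            · exact hTs (Finset.mem_filter.1 hb).1
            · exact hq hb
          exact (Finset.mem_filter.1 ha).2 b hbs hab.symm
        · rcases hb with hb | hb
          · exact ((Finset.mem_filter.1 hb).2 a (hq ha) hab).symm
          · exact hc.isClique ha hb hab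
      have h2 := card_clique_le hs (U ∪ q) (Finset.union_subset
        ((Finset.filter_subset _ _).trans hTs) hq) hclq
      rw [Finset.card_union_of_disjoint hdisj, hc.card_eq] at h2
      omega

open Classical in
theorem exists_large_degree {s : Finset V} (h : KTreeOn G k s) :
    ∀ T ⊆ s, T.Nonempty → G.IsClique (T : Set V) → (∀ u ∈ T, ∃ w ∈ s, w ≠ u ∧ ¬ G.Adj u w) →
      ∃ u ∈ T, k + T.card ≤ (s.filter (fun w => G.Adj u w)).card + 1 := by
  induction h with
  | base s hs =>
    intro T hT hne _ hnu
    obtain ⟨u, hu⟩ := hne
    obtain ⟨w, hw, hwu, hna⟩ := hnu u hu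
    exact absurd (hs.isClique (hT hu) hw hwu.symm) hna
  | step s x q hs hx hq hc hadj ih =>
    intro T hT hne hcl hnu
    by_cases hxT : x ∈ T
    · by_cases hT1 : (T.erase x).Nonempty
      · obtain ⟨u, hu, hdeg⟩ := ih (T.erase x) (by
            intro y hy
            rw [Finset.mem_erase] at hy
            rcases Finset.mem_cons.1 (hT hy.2) with h | h
            · exact absurd h hy.1
            · exact h) hT1
          (hcl.subset (by exact_mod_cast Finset.erase_subset x T)) (by
            intro u hu
            rw [Finset.mem_erase] at hu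
            obtain ⟨w, hw, hwu, hna⟩ := hnu u hu.2
            rcases Finset.mem_cons.1 hw with h | h
            · exact absurd (h ▸ hcl hu.2 hxT hu.1) hna
            · exact ⟨w, h, hwu, hna⟩)
        rw [Finset.mem_erase] at hu
        refine ⟨u, hu.2, ?_⟩
        have h1 : ((Finset.cons x s hx).filter (fun w => G.Adj u w)).card =
            (s.filter (fun w => G.Adj u w)).card + 1 := by
          rw [Finset.filter_cons_of_pos _ _ _ _ (hcl hu.2 hxT hu.1), Finset.card_cons]
        rw [h1]
        rw [Finset.card_erase_of_mem hxT] at hdeg
        have : 0 < T.card := Finset.card_pos.2 ⟨x, hxT⟩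
        omega
      · rw [Finset.not_nonempty_iff_eq_empty] at hT1
        refine ⟨x, hxT, ?_⟩
        have hT1' : T.card = 1 := by
          have := Finset.card_erase_of_mem hxT
          rw [hT1, Finset.card_empty] at this
          have : 0 < T.card := Finset.card_pos.2 ⟨x, hxT⟩
          omega
        have hsub : q ⊆ (Finset.cons x s hx).filter (fun w => G.Adj x w) := by
          intro y hy
          rw [Finset.mem_filter, Finset.mem_cons]
          exact ⟨Or.inr (hq hy), (hadj y (hq hy)).2 hy⟩
        have := Finset.card_le_card hsub
        rw [hc.card_eq] at this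
        omega
    · have hTs : T ⊆ s := by
        intro y hy
        rcases Finset.mem_cons.1 (hT hy) with h | h
        · exact absurd (h ▸ hy) hxT
        · exact h
      by_cases hall : ∀ u ∈ T, ∃ w ∈ s, w ≠ u ∧ ¬ G.Adj u w
      · obtain ⟨u, hu, hdeg⟩ := ih T hTs hne hcl hall
        refine ⟨u, hu, hdeg.trans ?_⟩
        gcongr
        exact Finset.subset_cons hx
      · push Not at hall
        obtain ⟨u, hu, hun⟩ := hall
        refine ⟨u, hu, ?_⟩
        have h1 := card_add_le (KTreeOn.step s x q hs hx hq hc hadj) T hT hcl hnu
        rw [Finset.card_cons] at h1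
        have hsub : s.erase u ⊆ (Finset.cons x s hx).filter (fun w => G.Adj u w) := by
          intro y hy
          rw [Finset.mem_erase] at hy
          rw [Finset.mem_filter, Finset.mem_cons]
          exact ⟨Or.inr hy.2, hun y hy.2 hy.1⟩
        have h2 := Finset.card_le_card hsub
        rw [Finset.card_erase_of_mem (hTs hu)] at h2
        have : 0 < s.card := Finset.card_pos.2 ⟨u, hTs hu⟩
        omega

open Classical in
theorem exists_colouring {s : Finset V} (h : KTreeOn G k s) (W : Set V) (t : ℕ)
    (hW : ∀ T : Finset V, T ⊆ s → (T : Set V) ⊆ W → G.IsClique (T : Set V) → T.card ≤ t + 1) :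
    ∃ c : V → Fin (t + 1), ∀ u ∈ s, ∀ v ∈ s, u ∈ W → v ∈ W → G.Adj u v → c u ≠ c v := by
  induction h with
  | base s hs =>
    have h1 : (s.filter (· ∈ W)).card ≤ (Finset.univ : Finset (Fin (t + 1))).card := by
      rw [Finset.card_univ, Fintype.card_fin]
      refine hW _ (Finset.filter_subset _ _) (fun y hy => ?_) (hs.isClique.subset (fun y hy => ?_))
      · exact (Finset.mem_filter.1 hy).2
      · exact (Finset.mem_filter.1 hy).1
    rw [Finset.card_univ, Fintype.card_fin] at h1
    let F := s.filter (· ∈ W)
    let e : F → Fin (t + 1) := fun y => Fin.castLE h1 (F.equivFin y)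
    have he : Function.Injective e := (Fin.castLE_injective h1).comp F.equivFin.injective
    refine ⟨fun y => if h : y ∈ F then e ⟨y, h⟩ else 0, ?_⟩
    intro u hu v hv huW hvW huv
    have huF : u ∈ F := Finset.mem_filter.2 ⟨hu, huW⟩
    have hvF : v ∈ F := Finset.mem_filter.2 ⟨hv, hvW⟩
    simp only [dif_pos huF, dif_pos hvF]
    intro heq
    have := congrArg Subtype.val (he heq)
    exact huv.ne this
  | step s x q hs hx hq hc hadj ih =>
    obtain ⟨c, hcc⟩ := ih (fun T hT => hW T (hT.trans (Finset.subset_cons hx)))
    by_cases hxW : x ∈ W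
    · have hcardq : ((q.filter (· ∈ W)).image c).card < (Finset.univ : Finset (Fin (t + 1))).card := by
        rw [Finset.card_univ, Fintype.card_fin]
        have h1 := hW (insert x (q.filter (· ∈ W))) (by
            intro y hy
            rw [Finset.mem_insert] at hy
            rw [Finset.mem_cons]
            rcases hy with hy | hy
            · exact Or.inl hy
            · exact Or.inr (hq (Finset.mem_filter.1 hy).1)) (by
            intro y hy
            rw [Finset.mem_coe, Finset.mem_insert] at hy
            rcases hy with rfl | hy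
            · exact hxW
            · exact (Finset.mem_filter.1 hy).2) (by
            rw [Finset.coe_insert, SimpleGraph.isClique_insert]
            refine ⟨hc.isClique.subset (fun y hy => (Finset.mem_filter.1 hy).1), ?_⟩
            intro y hy _
            have := (Finset.mem_filter.1 hy).1
            exact (hadj y (hq this)).2 this)
        rw [Finset.card_insert_of_notMem (fun hmem => hx (hq (Finset.mem_filter.1 hmem).1))] at h1
        exact lt_of_le_of_lt Finset.card_image_le (by omega)
      obtain ⟨a, -, ha⟩ := Finset.exists_mem_notMem_of_card_lt_card hcardq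
      refine ⟨fun y => if y = x then a else c y, ?_⟩
      have key : ∀ v ∈ s, v ∈ W → G.Adj x v → a ≠ c v := by
        intro v hv hvW hadjv heq
        exact ha (Finset.mem_image.2 ⟨v, Finset.mem_filter.2 ⟨(hadj v hv).1 hadjv, hvW⟩, heq.symm⟩)
      intro u hu v hv huW hvW huv
      rcases Finset.mem_cons.1 hu with hux | hus
      · rcases Finset.mem_cons.1 hv with hvx | hvs
        · exact absurd (hux.trans hvx.symm) huv.ne
        · have hne : v ≠ x := fun h => hx (h ▸ hvs)
          simp only [if_pos hux, if_neg hne]
          exact key v hvs hvW (hux ▸ huv)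
      · have hneu : u ≠ x := fun h => hx (h ▸ hus)
        rcases Finset.mem_cons.1 hv with hvx | hvs
        · simp only [if_pos hvx, if_neg hneu]
          exact (key u hus huW (hvx ▸ huv.symm)).symm
        · have hnev : v ≠ x := fun h => hx (h ▸ hvs)
          simp only [if_neg hneu, if_neg hnev]
          exact hcc u hus v hvs huW hvW huv
    · refine ⟨c, ?_⟩
      intro u hu v hv huW hvW huv
      rcases Finset.mem_cons.1 hu with rfl | hu
      · exact absurd huW hxW
      · rcases Finset.mem_cons.1 hv with rfl | hv
        · exact absurd hvW hxW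
        · exact hcc u hu v hv huW hvW huv

theorem card_filter_adj_eq (u : V) (s : Finset V) (hs : ∀ w, w ∈ s ↔ G.Adj u w) :
    (G.neighborSet u).ncard = s.card := by
  have h : G.neighborSet u = (s : Set V) := by
    ext w
    rw [SimpleGraph.mem_neighborSet, Finset.mem_coe, hs]
  rw [h, Set.ncard_coe_finset]

theorem colorable_degreeClass [Fintype V] (h : IsKTree k G) (t : ℕ)
    (hn : k + t + 2 ≤ Fintype.card V) :
    (G.induce (degreeClass G (k + t))).Colorable (t + 1) := by
  classical
  have hW : ∀ T : Finset V, T ⊆ Finset.univ → (T : Set V) ⊆ degreeClass G (k + t) →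
      G.IsClique (T : Set V) → T.card ≤ t + 1 := by
    intro T _ hTW hcl
    rcases T.eq_empty_or_nonempty with rfl | hne
    · simp
    have hdeg : ∀ u ∈ T, (Finset.univ.filter (fun w => G.Adj u w)).card = k + t := by
      intro u hu
      have := hTW hu
      have h2 : (G.neighborSet u).ncard = k + t := this
      rw [← h2]
      symm
      apply card_filter_adj_eq
      intro w
      simp
    obtain ⟨u, hu, hdu⟩ := exists_large_degree h T (Finset.subset_univ _) hne hcl (by
      intro u hu
      by_contra hcon
      push Not at hcon
      have hsub : Finset.univ.erase u ⊆ Finset.univ.filter (fun w => G.Adj u w) := by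
        intro w hw
        rw [Finset.mem_erase] at hw
        rw [Finset.mem_filter]
        exact ⟨Finset.mem_univ _, hcon w (Finset.mem_univ _) hw.1⟩
      have := Finset.card_le_card hsub
      rw [hdeg u hu, Finset.card_erase_of_mem (Finset.mem_univ _), Finset.card_univ] at this
      omega)
    rw [hdeg u hu] at hdu
    omega
  obtain ⟨c, hc⟩ := exists_colouring h (degreeClass G (k + t)) t hW
  exact ⟨SimpleGraph.Coloring.mk (fun v => c v.1) (fun {u v} huv =>
    hc u.1 (Finset.mem_univ _) v.1 (Finset.mem_univ _) u.2 v.2 huv)⟩

end Upper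

section Lower

/-- The extremal example: a clique on `k + 1` vertices, and `t + 1` further vertices, the `j`-th of
which is joined to all vertices of the clique except the `j`-th. -/
def Ex (k t : ℕ) : SimpleGraph (Fin (k + 1) ⊕ Fin (t + 1)) where
  Adj x y := match x, y with
    | .inl i, .inl j => i ≠ j
    | .inl i, .inr j => (i : ℕ) ≠ j
    | .inr i, .inl j => (i : ℕ) ≠ j
    | .inr _, .inr _ => False
  symm := ⟨by
    rintro (i | i) (j | j) h
    · exact Ne.symm h
    · exact Ne.symm h
    · exact Ne.symm h
    · exact h⟩
  loopless := ⟨by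
    rintro (i | i) h
    · exact h rfl
    · exact h⟩

theorem ex_kTree {k t : ℕ} (hkt : t ≤ k) : IsKTree k (Ex k t) := by
  classical
  have key : ∀ J : Finset (Fin (t + 1)), KTreeOn (Ex k t) k
      (Finset.disjSum (Finset.univ : Finset (Fin (k + 1))) J) := by
    intro J
    induction J using Finset.induction_on with
    | empty =>
      apply KTreeOn.base
      constructor
      · intro a ha b hb hab
        rcases a with a | a <;> rcases b with b | b
        · exact fun h => hab (by rw [h])
        · simp at hb
        · simp at ha
        · simp at ha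
      · simp
    | insert j J hj ih =>
      have hx : (Sum.inr j : Fin (k + 1) ⊕ Fin (t + 1)) ∉
          Finset.disjSum (Finset.univ : Finset (Fin (k + 1))) J := by
        simpa using hj
      have hins : Finset.disjSum (Finset.univ : Finset (Fin (k + 1))) (insert j J) =
          Finset.cons (Sum.inr j) _ hx := by
        ext a
        rcases a with a | a <;> simp
      rw [hins]
      let i0 : Fin (k + 1) := ⟨j, by have := j.2; omega⟩
      refine KTreeOn.step _ _ ((Finset.univ.erase i0).map ⟨Sum.inl, Sum.inl_injective⟩) ih hx ?_ ?_ ?_
      · intro a ha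
        simp only [Finset.mem_map, Function.Embedding.coeFn_mk] at ha
        obtain ⟨i, -, rfl⟩ := ha
        simp
      · constructor
        · intro a ha b hb hab
          simp only [Finset.coe_map, Function.Embedding.coeFn_mk, Set.mem_image] at ha hb
          obtain ⟨i, -, rfl⟩ := ha
          obtain ⟨i', -, rfl⟩ := hb
          exact fun h => hab (by rw [h])
        · rw [Finset.card_map, Finset.card_erase_of_mem (Finset.mem_univ _)]
          simp
      · rintro (i | i) hi
        · simp only [Finset.mem_map, Function.Embedding.coeFn_mk, Finset.mem_erase,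
            Finset.mem_univ, and_true, Sum.inl.injEq, exists_eq_right]
          show (j : ℕ) ≠ i ↔ i ≠ i0
          rw [Ne, Ne, Fin.ext_iff]
          exact not_congr eq_comm
        · simp only [Finset.mem_map, Function.Embedding.coeFn_mk]
          show False ↔ _
          simp
  have h := key Finset.univ
  unfold IsKTree
  rwa [Finset.univ_disjSum_univ] at h

theorem ex_degree {k t : ℕ} (hkt : t ≤ k) (i : Fin (t + 1)) :
    (Sum.inl ⟨i, by have := i.2; omega⟩ : Fin (k + 1) ⊕ Fin (t + 1)) ∈
      degreeClass (Ex k t) (k + t) := by
  classical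
  show ((Ex k t).neighborSet _).ncard = k + t
  let i0 : Fin (k + 1) := ⟨i, by have := i.2; omega⟩
  have h : (Ex k t).neighborSet (Sum.inl i0) =
      (Finset.disjSum (Finset.univ.erase i0) (Finset.univ.erase i) : Finset _) := by
    ext a
    rcases a with a | a
    · simp only [SimpleGraph.mem_neighborSet, Finset.mem_coe, Finset.inl_mem_disjSum,
        Finset.mem_erase, Finset.mem_univ, and_true]
      show i0 ≠ a ↔ a ≠ i0
      exact ne_comm
    · simp only [SimpleGraph.mem_neighborSet, Finset.mem_coe, Finset.inr_mem_disjSum,
        Finset.mem_erase, Finset.mem_univ, and_true]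
      show (i : ℕ) ≠ a ↔ a ≠ i
      rw [Ne, Ne, Fin.ext_iff]
      exact not_congr eq_comm
  rw [h, Set.ncard_coe_finset, Finset.card_disjSum, Finset.card_erase_of_mem (Finset.mem_univ _),
    Finset.card_erase_of_mem (Finset.mem_univ _)]
  simp

theorem ex_le_chromaticNumber {k t : ℕ} (hkt : t ≤ k) :
    ((t + 1 : ℕ) : ℕ∞) ≤ ((Ex k t).induce (degreeClass (Ex k t) (k + t))).chromaticNumber := by
  let f : (⊤ : SimpleGraph (Fin (t + 1))) →g (Ex k t).induce (degreeClass (Ex k t) (k + t)) :=
    { toFun := fun i => ⟨_, ex_degree hkt i⟩
      map_rel' := by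
        intro i j hij
        show (⟨i, _⟩ : Fin (k + 1)) ≠ ⟨j, _⟩
        intro h
        have := congrArg Fin.val h
        exact hij (Fin.ext this) }
  have h := SimpleGraph.chromaticNumber_mono_of_hom f
  rw [SimpleGraph.chromaticNumber_top, Fintype.card_fin] at h
  exact h

end Lower

/-- `g t = t + 1` for every `t`; in particular `g t` is smaller than `(t ^ 2 + t + 2) / 2` for
every `t ≥ 2`. -/
theorem result : (∀ t : ℕ, g t = ((t + 1 : ℕ) : ℕ∞)) ∧
    (∀ t : ℕ, 2 ≤ t → g t < (((t ^ 2 + t + 2) / 2 : ℕ) : ℕ∞)) := by
  have hg : ∀ t : ℕ, g t = ((t + 1 : ℕ) : ℕ∞) := by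
    intro t
    apply le_antisymm
    · apply sSup_le
      rintro c ⟨k, hk, V, _, G, hG, hn, rfl⟩
      exact (colorable_degreeClass hG t hn).chromaticNumber_le
    · refine (ex_le_chromaticNumber (k := t + 1) (t := t) (by omega)).trans (le_sSup ?_)
      refine ⟨t + 1, by omega, _, inferInstance, Ex (t + 1) t, ex_kTree (by omega), ?_, rfl⟩
      simp only [Fintype.card_sum, Fintype.card_fin]
      omega
  refine ⟨hg, fun t ht => ?_⟩
  rw [hg]
  have h : t + 1 < (t ^ 2 + t + 2) / 2 := by
    have h1 : 2 * t ≤ t ^ 2 := by nlinarith
    omega
  exact_mod_cast h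

end Pool.Agent.Results.MP_26d357_co.KTreeDegreeClasses
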